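import Pool.Agent.H71.TSG.M69

/-!
# Project BD: lattices of buildings and the `ℓ²`-homology of the Davis realization

The definitions of the statement. `M : CoxeterMatrix S` (`S` finite), `W = M.Group`, `par M J` the parabolic
subgroup `W_J`, `Sph M J`: it is finite, `IsBuilding M δ`, `residue M δ J x`.
-/

set_option autoImplicit false

open Finset

namespace Pool.Agent.H4.BD

open Pool.Agent.H4.FC Pool.Agent.H97.BLD

section bld

variable {S Δ : Type}

/-- A uniform lattice: the group `P` acts on the building with finite stabilizers and finitely many orbits of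
chambers. -/
structure GAct (P : Type) [Group P] [MulAction P Δ] (M : CoxeterMatrix S)
    (δ : Δ → Δ → M.Group) : Prop where
  iso : ∀ (p : P) (x y : Δ), δ (p • x) (p • y) = δ x y
  fin : ∀ x : Δ, {p : P | p • x = x}.Finite
  cof : ∃ F : Finset Δ, ∀ x : Δ, ∃ p : P, ∃ y ∈ F, p • y = x

end bld

/-! ### The `ℓ²`-chains of the Davis realization -/

section l2

variable {S Δ : Type} [Fintype S] [DecidableEq S]

/-- Square summable cubical chains of degree `i` of the Davis realization of the building: the cubes are the
triples `(U, T, R)`, `T` a spherical set of types, `U ⊆ T`, `R` a residue of type `U`; the dimension of the cube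
is the number of elements of `T \ U` (its vertices are the residues which contain `R` and whose types are between
`U` and `T`). -/
structure IsChB (M : CoxeterMatrix S) (δ : Δ → Δ → M.Group) (i : ℕ)
    (z : Finset S → Finset S → Set Δ → ℂ) : Prop where
  supp : ∀ U T R, z U T R ≠ 0 → U ⊆ T ∧ Sph M T ∧ (T \ U).card = i ∧ ∃ x, R = residue M δ U x
  l2 : ∀ U T, Summable fun R => ‖z U T R‖ ^ 2

/-- the sign -/
noncomputable def sgB (ν : S → ℕ) (U T : Finset S) (v : S) : ℂ :=
  (-1) ^ ((T \ U).filter fun u => ν u < ν v).card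

open Classical in
/-- the boundary: the boundary of the cube `(U, T, R)` is the sum over `v ∈ T \ U` of `±` the cube `(U, T \ v, R)`
minus the cube `(U ∪ v, T, R')`, `R'` the residue of type `U ∪ v` which contains `R` -/
noncomputable def bdB (M : CoxeterMatrix S) (δ : Δ → Δ → M.Group) (ν : S → ℕ)
    (z : Finset S → Finset S → Set Δ → ℂ) : Finset S → Finset S → Set Δ → ℂ := fun U T R =>
  if U ⊆ T ∧ ∃ x, R = residue M δ U x then
    ∑ v ∈ Tᶜ, sgB ν U T v * z U (insert v T) R -
      ∑ v ∈ U, sgB ν U T v * ∑ᶠ R' ∈ {R' | R' ⊆ R ∧ ∃ x, R' = residue M δ (U.erase v) x},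
        z (U.erase v) T R'
  else 0

/-- The reduced `ℓ²`-homology of the Davis realization of the building vanishes in degree `i`: every square
summable cycle is an `ℓ²`-limit of boundaries. -/
def L2ZeroB (M : CoxeterMatrix S) (δ : Δ → Δ → M.Group) (i : ℕ) : Prop :=
  ∀ ν : S → ℕ, Function.Injective ν → ∀ z : Finset S → Finset S → Set Δ → ℂ, IsChB M δ i z →
    bdB M δ ν z = 0 → ∀ ε : ℝ, 0 < ε → ∃ y : Finset S → Finset S → Set Δ → ℂ,
      IsChB M δ (i + 1) y ∧ ∑ U, ∑ T, ∑' R, ‖z U T R - bdB M δ ν y U T R‖ ^ 2 < ε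

end l2

end Pool.Agent.H4.BD
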